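import Pool.Agent.H250Z.HH.Data

set_option autoImplicit false

namespace Pool.Agent.H250Z.HH

/-- binomial coefficients with small lower index -/
def ch (n i : ℕ) : ℕ :=
  match i with
  | 0 => 1
  | 1 => n
  | _ => n * (n - 1) / 2

/-- all the base `65536` digits are small and there are at most `n` of them -/
def okd : ℕ → ℕ → Bool
  | 0, N => N == 0
  | n + 1, N => (N % 65536 ≤ 15) && okd n (N / 65536)

/-- the digits are congruent to those of the unit vector `r` -/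
def chk (r : ℕ) : ℕ → ℕ → ℕ → Bool
  | 0, _, _ => true
  | n + 1, s, S => (S % 65536 % 11 == if s = r then 1 else 0) && chk r n (s + 1) (S / 65536)

/-- the six pairs of orders -/
def ord (t : ℕ) : ℕ × ℕ :=
  match t with
  | 0 => (0, 0)
  | 1 => (1, 0)
  | 2 => (0, 1)
  | 3 => (2, 0)
  | 4 => (1, 1)
  | _ => (0, 2)

def tm (i j a b m1 m2 : ℕ) : ℕ := ch m1 i * ch m2 j * (a ^ (m1 - i) * b ^ (m2 - j))
def tmA (i j a b m1 m2 : ℕ) : ℕ :=
  ch m1 i * ch m2 j * ((m1 - i) * a ^ (m1 - i - 1) * b ^ (m2 - j))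
def tmB (i j a b m1 m2 : ℕ) : ℕ :=
  ch m1 i * ch m2 j * (a ^ (m1 - i) * ((m2 - j) * b ^ (m2 - j - 1)))

def dflt : ℕ × ℕ × ℕ × ℕ × ℕ := (0, 0, 0, 0, 0)

def valS (i j a b : ℕ) : ℕ := (dat.map (fun d => d.2.2.1 * tm i j a b d.1 d.2.1)).sum
def valA (i j a b : ℕ) : ℕ := (dat.map (fun d => d.2.2.1 * tmA i j a b d.1 d.2.1)).sum
def valB (i j a b : ℕ) : ℕ := (dat.map (fun d => d.2.2.1 * tmB i j a b d.1 d.2.1)).sum

def rowL (i j a b gA gB : ℕ) : List (ℕ × ℕ) :=
  (valA i j a b % 11, gA) :: (valB i j a b % 11, gB) ::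
    dat.map (fun d => (tm i j a b d.1 d.2.1 % 11, d.2.2.2))

def dotL (l : List (ℕ × ℕ)) : ℕ := (l.map (fun d => d.1 * d.2)).sum

def rowOK (k t : ℕ) : Bool :=
  (valS (ord t).1 (ord t).2 (pts.getD k dflt).1 (pts.getD k dflt).2.1 % 11 == 0) &&
  chk (6 * k + t) 270 0 (dotL (rowL (ord t).1 (ord t).2 (pts.getD k dflt).1 (pts.getD k dflt).2.1
    (pts.getD k dflt).2.2.1 (pts.getD k dflt).2.2.2.1))

def ptOK (k : ℕ) : Bool :=
  rowOK k 0 && rowOK k 1 && rowOK k 2 && rowOK k 3 && rowOK k 4 && rowOK k 5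

theorem dat_ok : dat.all (fun d => okd 270 d.2.2.2 && (d.1 + d.2.1 ≤ 18)) = true := by
  decide +kernel

theorem pts_ok : pts.all (fun d => okd 270 d.2.2.1 && okd 270 d.2.2.2.1 && okd 45 d.2.2.2.2) = true := by
  decide +kernel

/-- the monomials of degree eight -/
def m8 : List (ℕ × ℕ) := (List.range 9).flatMap (fun i => (List.range (9 - i)).map (fun j => (i, j)))

def colL (i j : ℕ) : List (ℕ × ℕ) := pts.map (fun d => (d.1 ^ i * d.2.1 ^ j % 11, d.2.2.2.2))

def colOK (u : ℕ) : Bool := chk u 45 0 (dotL (colL (m8.getD u (0, 0)).1 (m8.getD u (0, 0)).2))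

theorem col_ok : (List.range 45).all colOK = true := by
  decide +kernel

theorem val_ne : valS 0 0 0 7 % 11 ≠ 0 := by
  decide +kernel

theorem pt_ok1 : (List.range 15).all ptOK = true := by
  decide +kernel

theorem pt_ok2 : (List.range 15).all (fun k => ptOK (k + 15)) = true := by
  decide +kernel

theorem pt_ok3 : (List.range 15).all (fun k => ptOK (k + 30)) = true := by
  decide +kernel

end Pool.Agent.H250Z.HH
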