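import Pool.Agent.H250Z.HH.Hensel

set_option autoImplicit false

namespace Pool.Agent.H250Z.HH

open Finset MvPolynomial

section

variable {A : Type*} [CommRing A]

theorem pow_trunc (y u : A) (n : ℕ) : ∃ r : A, (y + u) ^ n =
    (n.choose 0 : A) * y ^ (n - 0) + (n.choose 1 : A) * y ^ (n - 1) * u
      + (n.choose 2 : A) * y ^ (n - 2) * u ^ 2 + u ^ 3 * r := by
  match n with
  | 0 => exact ⟨0, by simp⟩
  | 1 => exact ⟨0, by simp⟩
  | n + 2 =>
    induction n with
    | zero => exact ⟨0, by simp; ring⟩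
    | succ n ih =>
      obtain ⟨r, hr⟩ := ih
      refine ⟨((n + 2).choose 2 : A) * y ^ n + (y + u) * r, ?_⟩
      rw [pow_succ, hr, Nat.choose_succ_succ' (n + 2) 1]
      simp only [Nat.choose_zero_right, Nat.choose_one_right, Nat.sub_zero, Nat.add_sub_cancel]
      have e1 : n + 2 - 1 = n + 1 := by omega
      have e2 : n + 1 + 2 - 1 = n + 2 := by omega
      have e3 : n + 1 + 2 - 2 = n + 1 := by omega
      rw [e1, e2]
      push_cast
      ring

theorem hom_term (α β z : A) (m1 m2 m3 i j : ℕ) :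
    (m1.choose i : A) * (α * z) ^ (m1 - i) * ((m2.choose j : A) * (β * z) ^ (m2 - j)) * z ^ m3 =
      ((m1.choose i * m2.choose j : ℕ) : A) * (α ^ (m1 - i) * β ^ (m2 - j)) *
        z ^ (m1 + m2 + m3 - i - j) := by
  by_cases h1 : m1 < i
  · simp [Nat.choose_eq_zero_of_lt h1]
  by_cases h2 : m2 < j
  · simp [Nat.choose_eq_zero_of_lt h2]
  have : m1 + m2 + m3 - i - j = (m1 - i) + (m2 - j) + m3 := by omega
  rw [this]
  push_cast
  ring

theorem mono_cube (I : Ideal A) (α β z u w : A) (hu : u ∈ I) (hw : w ∈ I) (m1 m2 m3 : ℕ) :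
    (α * z + u) ^ m1 * (β * z + w) ^ m2 * z ^ m3 -
      ∑ t ∈ range 6, ((m1.choose (ord t).1 * m2.choose (ord t).2 : ℕ) : A) *
        (α ^ (m1 - (ord t).1) * β ^ (m2 - (ord t).2)) *
        z ^ (m1 + m2 + m3 - (ord t).1 - (ord t).2) * (u ^ (ord t).1 * w ^ (ord t).2) ∈ I ^ 3 := by
  obtain ⟨r, hr⟩ := pow_trunc (α * z) u m1
  obtain ⟨s, hs⟩ := pow_trunc (β * z) w m2
  simp only [← hom_term, sum_range_succ, sum_range_zero, ord]
  rw [hr, hs]
  generalize (m1.choose 0 : A) * (α * z) ^ (m1 - 0) = P0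
  generalize (m1.choose 1 : A) * (α * z) ^ (m1 - 1) = P1
  generalize (m1.choose 2 : A) * (α * z) ^ (m1 - 2) = P2
  generalize (m2.choose 0 : A) * (β * z) ^ (m2 - 0) = Q0
  generalize (m2.choose 1 : A) * (β * z) ^ (m2 - 1) = Q1
  generalize (m2.choose 2 : A) * (β * z) ^ (m2 - 2) = Q2
  generalize z ^ m3 = Z
  have c : ∀ x y v : A, x ∈ I → y ∈ I → v ∈ I → x * y * v ∈ I ^ 3 := by
    intro x y v hx hy hv
    rw [pow_succ, pow_two]
    exact Ideal.mul_mem_mul (Ideal.mul_mem_mul hx hy) hv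
  have : (P0 + P1 * u + P2 * u ^ 2 + u ^ 3 * r) * (Q0 + Q1 * w + Q2 * w ^ 2 + w ^ 3 * s) * Z -
      (0 + P0 * Q0 * Z * (u ^ 0 * w ^ 0) + P1 * Q0 * Z * (u ^ 1 * w ^ 0) +
        P0 * Q1 * Z * (u ^ 0 * w ^ 1) + P2 * Q0 * Z * (u ^ 2 * w ^ 0) +
        P1 * Q1 * Z * (u ^ 1 * w ^ 1) + P0 * Q2 * Z * (u ^ 0 * w ^ 2)) =
      (r * (Q0 + Q1 * w + Q2 * w ^ 2 + w ^ 3 * s) * Z) * (u * u * u)
      + (s * (P0 + P1 * u + P2 * u ^ 2) * Z) * (w * w * w)
      + ((P2 * Q1 + P2 * Q2 * w) * Z) * (u * u * w) + (P1 * Q2 * Z) * (u * w * w) := by ring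
  rw [this]
  exact add_mem (add_mem (add_mem (Ideal.mul_mem_left _ _ (c _ _ _ hu hu hu))
    (Ideal.mul_mem_left _ _ (c _ _ _ hw hw hw))) (Ideal.mul_mem_left _ _ (c _ _ _ hu hu hw)))
    (Ideal.mul_mem_left _ _ (c _ _ _ hu hw hw))

theorem e_le (m : M) : e1 m + e2 m ≤ 18 := by
  have hd := List.all_eq_true.1 dat_ok _ (List.getElem_mem m.2)
  simp only [Bool.and_eq_true, decide_eq_true_eq] at hd
  exact hd.2

theorem mem_cube (I : Ideal A) (c : M → A) (α β z u w : A) (hu : u ∈ I) (hw : w ∈ I)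
    (h : ∀ t < 6, H (ord t).1 (ord t).2 c α β = 0) :
    ∑ m, c m * ((α * z + u) ^ e1 m * (β * z + w) ^ e2 m * z ^ (18 - e1 m - e2 m)) ∈ I ^ 3 := by
  have h1 : ∑ m, c m * ((α * z + u) ^ e1 m * (β * z + w) ^ e2 m * z ^ (18 - e1 m - e2 m) -
      ∑ t ∈ range 6, (((e1 m).choose (ord t).1 * (e2 m).choose (ord t).2 : ℕ) : A) *
        (α ^ (e1 m - (ord t).1) * β ^ (e2 m - (ord t).2)) *
        z ^ (e1 m + e2 m + (18 - e1 m - e2 m) - (ord t).1 - (ord t).2) *
        (u ^ (ord t).1 * w ^ (ord t).2)) ∈ I ^ 3 :=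
    Ideal.sum_mem _ fun m _ => Ideal.mul_mem_left _ _ (mono_cube I α β z u w hu hw _ _ _)
  have h2 : ∑ m, c m * ∑ t ∈ range 6,
      (((e1 m).choose (ord t).1 * (e2 m).choose (ord t).2 : ℕ) : A) *
        (α ^ (e1 m - (ord t).1) * β ^ (e2 m - (ord t).2)) *
        z ^ (e1 m + e2 m + (18 - e1 m - e2 m) - (ord t).1 - (ord t).2) *
        (u ^ (ord t).1 * w ^ (ord t).2) = 0 := by
    simp only [mul_sum]
    rw [sum_comm]
    refine sum_eq_zero fun t ht => ?_
    have h3 := h t (mem_range.1 ht)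
    unfold H cc at h3
    have : ∀ m : M, e1 m + e2 m + (18 - e1 m - e2 m) = 18 := fun m => by
      have := e_le m; omega
    simp only [this]
    have h4 := congrArg (· * (z ^ (18 - (ord t).1 - (ord t).2) * (u ^ (ord t).1 * w ^ (ord t).2))) h3
    simp only [sum_mul, zero_mul] at h4
    rw [← h4]
    refine sum_congr rfl fun m _ => ?_
    ring
  simp only [mul_sub, sum_sub_distrib] at h1
  rwa [h2, sub_zero] at h1

end

theorem eval_smul_hom {k : Type*} [Field k] {g : MvPolynomial (Fin 3) k} {s : ℕ}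
    (hg : g.IsHomogeneous s) (l : k) (v : Fin 3 → k) :
    eval (l • v) g = l ^ s * eval v g := by
  rw [eval_eq', eval_eq', mul_sum]
  refine sum_congr rfl fun d hd => ?_
  have h1 : d 0 + d 1 + d 2 = s := by
    have := hg (mem_support_iff.1 hd)
    rw [Finsupp.weight_apply, Finsupp.sum_fintype _ _ (by simp)] at this
    simpa [Fin.sum_univ_three] using this
  simp only [Fin.prod_univ_three, Pi.smul_apply, smul_eq_mul, ← h1]
  ring

def i8 (u : ℕ) : ℕ := (m8.getD u (0, 0)).1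
def j8 (u : ℕ) : ℕ := (m8.getD u (0, 0)).2

theorem ij_le : ∀ u : Fin 45, i8 u + j8 u ≤ 8 := by decide +kernel
theorem ij_inj : ∀ u v : Fin 45, i8 u = i8 v → j8 u = j8 v → u = v := by decide +kernel
theorem ij_surj : ∀ i j : Fin 9, i.1 + j.1 ≤ 8 → ∃ u : Fin 45, i8 u = i ∧ j8 u = j := by
  decide +kernel

noncomputable def mono (u : Fin 45) : Fin 3 →₀ ℕ :=
  Finsupp.equivFunOnFinite.symm ![i8 u, j8 u, 8 - i8 u - j8 u]

theorem mono_inj : Function.Injective mono := by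
  intro u v h
  have h0 := congrArg (· 0) h
  have h1 := congrArg (· 1) h
  simp only [mono, Finsupp.equivFunOnFinite_symm_apply_apply] at h0 h1
  exact ij_inj u v h0 h1

theorem mono_surj {k : Type*} [Field k] {g : MvPolynomial (Fin 3) k} (hg : g.IsHomogeneous 8)
    (d : Fin 3 →₀ ℕ) (hd : d ∈ g.support) : ∃ u, mono u = d := by
  have h1 : d 0 + d 1 + d 2 = 8 := by
    have := hg (mem_support_iff.1 hd)
    rw [Finsupp.weight_apply, Finsupp.sum_fintype _ _ (by simp)] at this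
    simpa [Fin.sum_univ_three] using this
  obtain ⟨u, hu1, hu2⟩ := ij_surj ⟨d 0, by omega⟩ ⟨d 1, by omega⟩ (by simp only; omega)
  simp only at hu1 hu2
  refine ⟨u, ?_⟩
  ext i
  simp only [mono, Finsupp.equivFunOnFinite_symm_apply_apply]
  fin_cases i
  · simpa using hu1
  · simpa using hu2
  · simp [hu1, hu2]; omega

theorem eval_eight {k : Type*} [Field k] {g : MvPolynomial (Fin 3) k} (hg : g.IsHomogeneous 8)
    (a b : k) : eval ![a, b, 1] g = ∑ u : Fin 45, a ^ i8 u * b ^ j8 u * coeff (mono u) g := by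
  classical
  rw [eval_eq', sum_subset (s₂ := univ.image mono)]
  · rw [sum_image (fun u _ v _ h => mono_inj h)]
    refine sum_congr rfl fun u _ => ?_
    simp [mono, Fin.prod_univ_three, mul_comm]
  · intro d hd
    obtain ⟨u, rfl⟩ := mono_surj hg d hd
    exact mem_image_of_mem _ (mem_univ _)
  · intro d _ hd
    rw [notMem_support_iff.1 hd, zero_mul]

def gC (k : ℕ) : ℕ := (pts.getD k dflt).2.2.2.2

theorem sum_pts {R : Type*} [AddCommMonoid R] (f : ℕ × ℕ × ℕ × ℕ × ℕ → R) :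
    (pts.map f).sum = ∑ k : Fin 45, f (pts.getD k dflt) := by
  rw [← Fin.sum_univ_fun_getElem]
  refine Fintype.sum_equiv (finCongr pts_length) _ _ fun k => ?_
  rw [List.getD_eq_getElem _ _ (by simp)]
  rfl

theorem col_inv (u v : Fin 45) :
    ∑ k : Fin 45, (dg (gC k) v : ZMod 11) * ((pa k : ZMod 11) ^ i8 u * (pb k : ZMod 11) ^ j8 u)
      = if v = u then 1 else 0 := by
  have h := List.all_eq_true.1 col_ok u (List.mem_range.2 u.2)
  have hp := List.all_eq_true.1 pts_ok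
  simp only [Bool.and_eq_true] at hp
  have := chk_dot _ _ _ (by
    intro d hd'
    simp only [colL, List.mem_map] at hd'
    obtain ⟨x, hx, rfl⟩ := hd'
    exact ⟨Nat.le_of_lt_succ (Nat.mod_lt _ (by norm_num)), (hp x hx).2⟩)
    (by simp [colL, pts_length]) h v v.2
  simp only [Fin.ext_iff]
  rw [← this]
  simp only [colL, List.map_map]
  rw [sum_pts]
  simp only [Function.comp, Nat.cast_sum, Nat.cast_mul, ZMod.natCast_mod, Nat.cast_pow]
  refine sum_congr rfl fun k _ => ?_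
  unfold pa pb gC i8 j8
  ring

abbrev K : Type := AlgebraicClosure ℚ_[11]

noncomputable def ψ : Z11 →+* K := (algebraMap ℚ_[11] K).comp PadicInt.Coe.ringHom

theorem ψ_inj : Function.Injective ψ :=
  (algebraMap ℚ_[11] K).injective.comp Subtype.val_injective

theorem no_octic (x : St) (hx : Red x) (g : MvPolynomial (Fin 3) K) (hg : g.IsHomogeneous 8)
    (h : ∀ k, eval ![ψ (x.2.1 k), ψ (x.2.2 k), 1] g = 0) : g = 0 := by
  classical
  let N : Matrix (Fin 45) (Fin 45) Z11 := fun v u =>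
    ∑ k : Fin 45, (dg (gC k) v : Z11) * (x.2.1 k ^ i8 u * x.2.2 k ^ j8 u)
  have h1 : φ.mapMatrix N = 1 := by
    ext v u
    simp only [RingHom.mapMatrix_apply, Matrix.map_apply, N, map_sum, map_mul, map_pow, map_natCast,
      hx.2.1, hx.2.2, col_inv, Matrix.one_apply]
  have h2 : N.det ≠ 0 := by
    intro h0
    have := φ.map_det N
    rw [h0, h1, map_zero, Matrix.det_one] at this
    exact zero_ne_one this
  have h3 : (ψ.mapMatrix N).det ≠ 0 := by
    rw [← ψ.map_det]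
    exact (map_ne_zero_iff _ ψ_inj).2 h2
  have h4 : (ψ.mapMatrix N).mulVec (fun u => coeff (mono u) g) = 0 := by
    ext v
    simp only [Matrix.mulVec, dotProduct, RingHom.mapMatrix_apply, Matrix.map_apply, N, map_sum,
      map_mul, map_pow, map_natCast, sum_mul, Pi.zero_apply]
    rw [sum_comm]
    refine sum_eq_zero fun k _ => ?_
    have := h k
    rw [eval_eight hg] at this
    simp only [mul_assoc] at this ⊢
    rw [← mul_sum, this, mul_zero]
  have h5 := Matrix.eq_zero_of_mulVec_eq_zero h3 h4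
  by_contra h0
  obtain ⟨d, hd⟩ := support_nonempty.2 h0
  obtain ⟨u, rfl⟩ := mono_surj hg d hd
  exact mem_support_iff.1 hd (congrFun h5 u)

/-- the form of degree eighteen -/
noncomputable def FF (x : St) : MvPolynomial (Fin 3) K :=
  ∑ m, C (ψ (x.1 m)) * (X 0 ^ e1 m * X 1 ^ e2 m * X 2 ^ (18 - e1 m - e2 m))

theorem FF_hom (x : St) : (FF x).IsHomogeneous 18 := by
  refine IsHomogeneous.sum _ _ _ fun m _ => ?_
  have h := (isHomogeneous_C (Fin 3) (ψ (x.1 m))).mul
    (((isHomogeneous_X_pow (R := K) (0 : Fin 3) (e1 m)).mul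
      (isHomogeneous_X_pow (R := K) (1 : Fin 3) (e2 m))).mul
      (isHomogeneous_X_pow (R := K) (2 : Fin 3) (18 - e1 m - e2 m)))
  have e : 0 + (e1 m + e2 m + (18 - e1 m - e2 m)) = 18 := by have := e_le m; omega
  rwa [e] at h

theorem FF_ne (x : St) (hx : Red x) : FF x ≠ 0 := by
  intro h0
  have h1 : eval ![0, 7, 1] (FF x) = ψ (H 0 0 x.1 0 7) := by
    simp [FF, H, cc, map_sum, map_ofNat]
  rw [h0, map_zero] at h1
  have h2 := (map_eq_zero_iff _ ψ_inj).1 h1.symm
  have h3 := congrArg φ h2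
  rw [map_H, map_zero, map_ofNat] at h3
  simp only [hx.1] at h3
  have h4 := cast_valS 0 0 0 7 (by omega) (by omega)
  simp only [Nat.cast_zero, Nat.cast_ofNat] at h4
  rw [← h4, ZMod.natCast_eq_zero_iff] at h3
  exact val_ne (Nat.mod_eq_zero_of_dvd h3)

theorem FF_mem (x : St) (hE : ∀ r, Eqn x r = 0) (k : Fin 45) (I : Ideal (MvPolynomial (Fin 3) K))
    (hu : X 0 - C (ψ (x.2.1 k)) * X 2 ∈ I) (hw : X 1 - C (ψ (x.2.2 k)) * X 2 ∈ I) :
    FF x ∈ I ^ 3 := by
  have := mem_cube I (fun m => C (ψ (x.1 m))) (C (ψ (x.2.1 k))) (C (ψ (x.2.2 k))) (X 2) _ _ hu hw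
    (by
      intro t ht
      have h1 := hE (k, ⟨t, ht⟩)
      unfold Eqn at h1
      rw [← map_H (C : K →+* MvPolynomial (Fin 3) K), ← map_H ψ, h1, map_zero, map_zero])
  simpa only [add_sub_cancel, FF] using this

end Pool.Agent.H250Z.HH
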