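import Pool.Agent.H250Z.HH.Pack

set_option autoImplicit false

namespace Pool.Agent.H250Z.HH

open Finset

abbrev M : Type := Fin dat.length

def e1 (m : M) : ℕ := dat[m.1].1
def e2 (m : M) : ℕ := dat[m.1].2.1
def c0 (m : M) : ℕ := dat[m.1].2.2.1
def gm (m : M) : ℕ := dat[m.1].2.2.2

def pa (k : ℕ) : ℕ := (pts.getD k dflt).1
def pb (k : ℕ) : ℕ := (pts.getD k dflt).2.1
def gA (k : ℕ) : ℕ := (pts.getD k dflt).2.2.1
def gB (k : ℕ) : ℕ := (pts.getD k dflt).2.2.2.1

section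

variable {R : Type*} [CommRing R]

def cc (i j : ℕ) (m : M) : ℕ := (e1 m).choose i * (e2 m).choose j

/-- the Taylor coefficient of order `(i, j)` at the point `(a, b)` -/
def H (i j : ℕ) (c : M → R) (a b : R) : R :=
  ∑ m, c m * ((cc i j m : R) * (a ^ (e1 m - i) * b ^ (e2 m - j)))

def HA (i j : ℕ) (c : M → R) (a b : R) : R :=
  ∑ m, c m * ((cc i j m : R) * (((e1 m - i : ℕ) : R) * a ^ (e1 m - i - 1) * b ^ (e2 m - j)))

def HB (i j : ℕ) (c : M → R) (a b : R) : R :=
  ∑ m, c m * ((cc i j m : R) * (a ^ (e1 m - i) * (((e2 m - j : ℕ) : R) * b ^ (e2 m - j - 1))))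

theorem map_H {S : Type*} [CommRing S] (f : R →+* S) (i j : ℕ) (c : M → R) (a b : R) :
    f (H i j c a b) = H i j (fun m => f (c m)) (f a) (f b) := by
  simp [H, map_sum]

theorem map_HA {S : Type*} [CommRing S] (f : R →+* S) (i j : ℕ) (c : M → R) (a b : R) :
    f (HA i j c a b) = HA i j (fun m => f (c m)) (f a) (f b) := by
  simp only [HA, map_sum, map_mul, map_pow, map_natCast]

theorem map_HB {S : Type*} [CommRing S] (f : R →+* S) (i j : ℕ) (c : M → R) (a b : R) :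
    f (HB i j c a b) = HB i j (fun m => f (c m)) (f a) (f b) := by
  simp only [HB, map_sum, map_mul, map_pow, map_natCast]

theorem term_taylor (c g w a α b β q : R) (u v : ℕ) : ∃ r : R,
    (c + q * g) * (w * ((a + q * α) ^ u * (b + q * β) ^ v)) =
      c * (w * (a ^ u * b ^ v)) + q * (g * (w * (a ^ u * b ^ v)) +
        α * (c * (w * ((u : R) * a ^ (u - 1) * b ^ v))) +
        β * (c * (w * (a ^ u * ((v : R) * b ^ (v - 1)))))) + q ^ 2 * r := by
  obtain ⟨k1, h1⟩ := Polynomial.powAddExpansion a (q * α) u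
  obtain ⟨k2, h2⟩ := Polynomial.powAddExpansion b (q * β) v
  rw [h1, h2]
  generalize a ^ u = A
  generalize b ^ v = B
  generalize (u : R) * a ^ (u - 1) = A'
  generalize (v : R) * b ^ (v - 1) = B'
  refine ⟨w * (c * (A * k2 * β ^ 2 + A' * α * B' * β + k1 * α ^ 2 * B
    + q * (A' * α * k2 * β ^ 2 + k1 * α ^ 2 * B' * β) + q ^ 2 * (k1 * α ^ 2 * k2 * β ^ 2))
    + g * (A * B' * β + A' * α * B + q * (A * k2 * β ^ 2 + A' * α * B' * β + k1 * α ^ 2 * B)
    + q ^ 2 * (A' * α * k2 * β ^ 2 + k1 * α ^ 2 * B' * β)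
    + q ^ 3 * (k1 * α ^ 2 * k2 * β ^ 2))), ?_⟩
  ring

theorem H_taylor (i j : ℕ) (c g : M → R) (a α b β q : R) : ∃ r : R,
    H i j (fun m => c m + q * g m) (a + q * α) (b + q * β) =
      H i j c a b + q * (H i j g a b + α * HA i j c a b + β * HB i j c a b) + q ^ 2 * r := by
  choose r hr using fun m : M =>
    term_taylor (c m) (g m) (cc i j m : R) a α b β q (e1 m - i) (e2 m - j)
  refine ⟨∑ m, r m, ?_⟩
  simp only [H, HA, HB, hr, sum_add_distrib, mul_sum, mul_add]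

theorem H_lin {ι : Type*} [Fintype ι] (i j : ℕ) (x : ι → R) (g : ι → M → R) (a b : R) :
    H i j (fun m => ∑ s, x s * g s m) a b = ∑ s, x s * H i j (g s) a b := by
  simp only [H, sum_mul, mul_sum]
  rw [sum_comm]
  simp only [mul_assoc]

end

theorem ord_le (t : ℕ) : (ord t).1 ≤ 2 ∧ (ord t).2 ≤ 2 := by
  unfold ord
  split <;> simp

theorem cast_valS (i j a b : ℕ) (hi : i ≤ 2) (hj : j ≤ 2) :
    (valS i j a b : ZMod 11) = H i j (fun m => (c0 m : ZMod 11)) a b := by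
  unfold valS H
  rw [← Fin.sum_univ_fun_getElem]
  simp only [tm, ch_eq _ _ hi, ch_eq _ _ hj, cc, e1, e2, c0]
  push_cast
  rfl

theorem cast_valA (i j a b : ℕ) (hi : i ≤ 2) (hj : j ≤ 2) :
    (valA i j a b : ZMod 11) = HA i j (fun m => (c0 m : ZMod 11)) a b := by
  unfold valA HA
  rw [← Fin.sum_univ_fun_getElem]
  simp only [tmA, ch_eq _ _ hi, ch_eq _ _ hj, cc, e1, e2, c0, Nat.cast_sum, Nat.cast_mul,
    Nat.cast_pow]

theorem cast_valB (i j a b : ℕ) (hi : i ≤ 2) (hj : j ≤ 2) :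
    (valB i j a b : ZMod 11) = HB i j (fun m => (c0 m : ZMod 11)) a b := by
  unfold valB HB
  rw [← Fin.sum_univ_fun_getElem]
  simp only [tmB, ch_eq _ _ hi, ch_eq _ _ hj, cc, e1, e2, c0, Nat.cast_sum, Nat.cast_mul,
    Nat.cast_pow]

theorem pts_length : pts.length = 45 := by decide +kernel
theorem dat_length : dat.length = 190 := by decide +kernel

theorem pt_ok (k : ℕ) (hk : k < 45) : ptOK k = true := by
  have h1 := List.all_eq_true.1 pt_ok1
  have h2 := List.all_eq_true.1 pt_ok2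
  have h3 := List.all_eq_true.1 pt_ok3
  simp only [List.mem_range] at h1 h2 h3
  by_cases a : k < 15
  · exact h1 k a
  by_cases b : k < 30
  · have := h2 (k - 15) (by omega)
    rwa [Nat.sub_add_cancel (by omega)] at this
  · have := h3 (k - 30) (by omega)
    rwa [Nat.sub_add_cancel (by omega)] at this

theorem row_ok (k t : ℕ) (hk : k < 45) (ht : t < 6) : rowOK k t = true := by
  have h := pt_ok k hk
  simp only [ptOK, Bool.and_eq_true] at h
  obtain ⟨⟨⟨⟨⟨h0, h1⟩, h2⟩, h3⟩, h4⟩, h5⟩ := h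
  interval_cases t
  exacts [h0, h1, h2, h3, h4, h5]

theorem getD_mem (k : ℕ) (hk : k < 45) : pts.getD k dflt ∈ pts := by
  rw [List.getD_eq_getElem _ _ (by rw [pts_length]; exact hk)]
  exact List.getElem_mem _

theorem row_val (k t : ℕ) (hk : k < 45) (ht : t < 6) :
    H (ord t).1 (ord t).2 (fun m => (c0 m : ZMod 11)) (pa k) (pb k) = 0 := by
  have h := row_ok k t hk ht
  simp only [rowOK, Bool.and_eq_true, beq_iff_eq] at h
  rw [← cast_valS _ _ _ _ (ord_le t).1 (ord_le t).2, ← ZMod.natCast_mod]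
  unfold pa pb
  rw [h.1]; simp

theorem row_inv (k t : ℕ) (hk : k < 45) (ht : t < 6) (s : ℕ) (hs : s < 270) :
    H (ord t).1 (ord t).2 (fun m => (dg (gm m) s : ZMod 11)) (pa k) (pb k)
      + (dg (gA k) s : ZMod 11) * HA (ord t).1 (ord t).2 (fun m => (c0 m : ZMod 11)) (pa k) (pb k)
      + (dg (gB k) s : ZMod 11) * HB (ord t).1 (ord t).2 (fun m => (c0 m : ZMod 11)) (pa k) (pb k)
      = if s = 6 * k + t then 1 else 0 := by
  have h := row_ok k t hk ht
  simp only [rowOK, Bool.and_eq_true, beq_iff_eq] at h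
  have hp := List.all_eq_true.1 pts_ok _ (getD_mem k hk)
  have hd := List.all_eq_true.1 dat_ok
  simp only [Bool.and_eq_true] at hp hd
  have := chk_dot _ _ _ (by
    intro d hd'
    simp only [rowL, List.mem_cons, List.mem_map] at hd'
    rcases hd' with rfl | rfl | ⟨x, hx, rfl⟩
    · exact ⟨Nat.le_of_lt_succ (Nat.mod_lt _ (by norm_num)), hp.1.1⟩
    · exact ⟨Nat.le_of_lt_succ (Nat.mod_lt _ (by norm_num)), hp.1.2⟩
    · exact ⟨Nat.le_of_lt_succ (Nat.mod_lt _ (by norm_num)), (hd x hx).1⟩)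
    (by simp [rowL, dat_length]) h.2 s hs
  rw [← this]
  simp only [rowL, List.map_cons, List.sum_cons, List.map_map, Nat.cast_add, Nat.cast_mul,
    ZMod.natCast_mod]
  rw [cast_valA _ _ _ _ (ord_le t).1 (ord_le t).2, cast_valB _ _ _ _ (ord_le t).1 (ord_le t).2,
    ← Fin.sum_univ_fun_getElem]
  simp only [Function.comp, Nat.cast_sum, Nat.cast_mul, ZMod.natCast_mod, tm,
    ch_eq _ _ (ord_le t).1, ch_eq _ _ (ord_le t).2, Nat.cast_pow]
  unfold pa pb gA gB
  have e : ∀ x y z u v : ZMod 11, x = y → x + u * z + v = z * u + (v + y) := by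
    intro x y z u v h; rw [h]; ring
  rw [mul_comm (dg _ s : ZMod 11) (HB _ _ _ _ _)]
  apply e
  unfold H
  refine sum_congr rfl fun m _ => ?_
  simp only [cc, e1, e2, gm, Nat.cast_mul]
  ring

instance fact11 : Fact (Nat.Prime 11) := ⟨by norm_num⟩

abbrev Z11 : Type := ℤ_[11]

abbrev St : Type := (M → Z11) × (Fin 45 → Z11) × (Fin 45 → Z11)

noncomputable abbrev φ : Z11 →+* ZMod 11 := PadicInt.toZMod

theorem φ_eq_zero (x : Z11) : φ x = 0 ↔ (11 : Z11) ∣ x := by
  rw [← RingHom.mem_ker, PadicInt.ker_toZMod, PadicInt.maximalIdeal_eq_span_p,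
    Ideal.mem_span_singleton]
  norm_num

/-- the reduction is the given configuration -/
def Red (x : St) : Prop :=
  (∀ m, φ (x.1 m) = c0 m) ∧ (∀ k, φ (x.2.1 k) = pa k) ∧ ∀ k, φ (x.2.2 k) = pb k

noncomputable def Eqn (x : St) (r : Fin 45 × Fin 6) : Z11 :=
  H (ord r.2).1 (ord r.2).2 x.1 (x.2.1 r.1) (x.2.2 r.1)

theorem step (n : ℕ) (x : St) (hx : Red x) (h : ∀ r, (11 : Z11) ^ (n + 1) ∣ Eqn x r) :
    ∃ y : St, Red y ∧ ∀ r, (11 : Z11) ^ (n + 2) ∣ Eqn y r := by
  choose e he using h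
  set q : Z11 := 11 ^ (n + 1) with hq
  have hq0 : φ q = 0 := (φ_eq_zero q).2 (dvd_pow_self _ (by omega))
  let ix : Fin 45 × Fin 6 → ℕ := fun s => 6 * s.1.1 + s.2.1
  let g : M → Z11 := fun m => ∑ s, (-e s) * (dg (gm m) (ix s) : Z11)
  let α : Fin 45 → Z11 := fun k => ∑ s, (-e s) * (dg (gA k) (ix s) : Z11)
  let β : Fin 45 → Z11 := fun k => ∑ s, (-e s) * (dg (gB k) (ix s) : Z11)
  refine ⟨(fun m => x.1 m + q * g m, fun k => x.2.1 k + q * α k, fun k => x.2.2 k + q * β k),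
    ⟨fun m => ?_, fun k => ?_, fun k => ?_⟩, fun r => ?_⟩
  · simp only [map_add, map_mul, hq0, zero_mul, add_zero]; exact hx.1 m
  · simp only [map_add, map_mul, hq0, zero_mul, add_zero]; exact hx.2.1 k
  · simp only [map_add, map_mul, hq0, zero_mul, add_zero]; exact hx.2.2 k
  · obtain ⟨ρ, hρ⟩ := H_taylor (ord r.2).1 (ord r.2).2 x.1 g (x.2.1 r.1) (α r.1) (x.2.2 r.1)
      (β r.1) q
    have h1 : Eqn x r = q * e r := he r
    unfold Eqn at h1 ⊢
    simp only
    rw [hρ, h1]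
    have key : φ (e r + (H (ord r.2).1 (ord r.2).2 g (x.2.1 r.1) (x.2.2 r.1)
        + α r.1 * HA (ord r.2).1 (ord r.2).2 x.1 (x.2.1 r.1) (x.2.2 r.1)
        + β r.1 * HB (ord r.2).1 (ord r.2).2 x.1 (x.2.1 r.1) (x.2.2 r.1))) = 0 := by
      simp only [map_add, map_mul, map_H, map_HA, map_HB, hx.1, hx.2.1, hx.2.2, g, α, β, map_sum,
        map_natCast]
      rw [H_lin _ _ (fun s => φ (-e s)) (fun s m => (dg (gm m) (ix s) : ZMod 11)), sum_mul, sum_mul,
        ← sum_add_distrib, ← sum_add_distrib]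
      have : ∀ s : Fin 45 × Fin 6, φ (-e s) * H (ord r.2).1 (ord r.2).2
          (fun m => (dg (gm m) (ix s) : ZMod 11)) (pa r.1) (pb r.1)
          + φ (-e s) * (dg (gA r.1) (ix s) : ZMod 11) *
            HA (ord r.2).1 (ord r.2).2 (fun m => (c0 m : ZMod 11)) (pa r.1) (pb r.1)
          + φ (-e s) * (dg (gB r.1) (ix s) : ZMod 11) *
            HB (ord r.2).1 (ord r.2).2 (fun m => (c0 m : ZMod 11)) (pa r.1) (pb r.1)
          = if s = r then φ (-e s) else 0 := by
        intro s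
        have hs : ix s < 270 := by
          have := s.1.2; have := s.2.2; simp only [ix]; omega
        have h2 := row_inv r.1 r.2 r.1.2 r.2.2 (ix s) hs
        rw [mul_assoc, mul_assoc, ← mul_add, ← mul_add, h2]
        by_cases hsr : s = r
        · subst hsr; simp [ix]
        · rw [if_neg hsr, if_neg, mul_zero]
          intro h3
          apply hsr
          have a1 := s.2.2; have a2 := r.2.2
          simp only [ix] at h3
          exact Prod.ext (Fin.ext (by omega)) (Fin.ext (by omega))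
      rw [sum_congr rfl (fun s _ => this s)]
      simp
    obtain ⟨w, hw⟩ := (φ_eq_zero _).1 key
    refine ⟨w + 11 ^ n * ρ, ?_⟩
    have : q * e r + q * (H (ord r.2).1 (ord r.2).2 g (x.2.1 r.1) (x.2.2 r.1)
        + α r.1 * HA (ord r.2).1 (ord r.2).2 x.1 (x.2.1 r.1) (x.2.2 r.1)
        + β r.1 * HB (ord r.2).1 (ord r.2).2 x.1 (x.2.1 r.1) (x.2.2 r.1)) = q * (11 * w) := by
      rw [← hw]; ring
    rw [this, hq]
    ring

theorem approx (n : ℕ) : ∃ x : St, Red x ∧ ∀ r, (11 : Z11) ^ (n + 1) ∣ Eqn x r := by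
  induction n with
  | zero =>
    refine ⟨(fun m => (c0 m : Z11), fun k => (pa k : Z11), fun k => (pb k : Z11)),
      ⟨fun m => by simp, fun k => by simp, fun k => by simp⟩, fun r => ?_⟩
    rw [zero_add, pow_one, ← φ_eq_zero]
    unfold Eqn
    simp only [map_H, map_natCast]
    exact row_val r.1 r.2 r.1.2 r.2.2
  | succ n ih =>
    obtain ⟨x, hx, h⟩ := ih
    exact step n x hx h

theorem dvd_iff_norm (n : ℕ) (x : Z11) :
    (11 : Z11) ^ n ∣ x ↔ ‖x‖ ≤ ((11 : ℕ) : ℝ) ^ (-n : ℤ) := by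
  rw [PadicInt.norm_le_pow_iff_mem_span_pow, Ideal.mem_span_singleton]
  norm_num

theorem closed_dvd {X : Type*} [TopologicalSpace X] (n : ℕ) (f : X → Z11) (hf : Continuous f) :
    IsClosed {x | (11 : Z11) ^ n ∣ f x} := by
  simp only [dvd_iff_norm]
  exact isClosed_le hf.norm continuous_const

theorem closed_φ {X : Type*} [TopologicalSpace X] (f : X → Z11) (hf : Continuous f) (c : ℕ) :
    IsClosed {x | φ (f x) = c} := by
  have : {x | φ (f x) = c} = {x | (11 : Z11) ^ 1 ∣ f x - c} := by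
    ext x
    simp only [Set.mem_ofPred_eq, pow_one, ← φ_eq_zero, map_sub, map_natCast, sub_eq_zero]
  rw [this]
  exact closed_dvd 1 _ (hf.sub continuous_const)

theorem cont_Eqn (r : Fin 45 × Fin 6) : Continuous (fun x : St => Eqn x r) := by
  unfold Eqn H
  fun_prop

theorem exists_lift : ∃ x : St, Red x ∧ ∀ r, Eqn x r = 0 := by
  let T : ℕ → Set St := fun n => {x | Red x ∧ ∀ r, (11 : Z11) ^ (n + 1) ∣ Eqn x r}
  have hcl : ∀ n, IsClosed (T n) := by
    intro n
    simp only [T, Red, Set.ofPred_and, Set.ofPred_forall]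
    refine IsClosed.inter (IsClosed.inter ?_ (IsClosed.inter ?_ ?_)) ?_
    · exact isClosed_iInter fun m => closed_φ _ (by fun_prop) _
    · exact isClosed_iInter fun k => closed_φ _ (by fun_prop) _
    · exact isClosed_iInter fun k => closed_φ _ (by fun_prop) _
    · exact isClosed_iInter fun r => closed_dvd _ _ (cont_Eqn r)
  obtain ⟨x, hx⟩ := IsCompact.nonempty_iInter_of_sequence_nonempty_isCompact_isClosed T
    (fun n x hx => ⟨hx.1, fun r => (pow_dvd_pow _ (by omega)).trans (hx.2 r)⟩)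
    (fun n => approx n) (hcl 0).isCompact hcl
  rw [Set.mem_iInter] at hx
  refine ⟨x, (hx 0).1, fun r => ?_⟩
  by_contra h0
  have hpos : 0 < ‖Eqn x r‖ := norm_pos_iff.2 h0
  obtain ⟨n, hn⟩ := exists_pow_lt_of_lt_one hpos (show ((11 : ℝ))⁻¹ < 1 by norm_num)
  have h1 := (dvd_iff_norm n _).1 ((pow_dvd_pow _ (Nat.le_succ n)).trans ((hx n).2 r))
  rw [zpow_neg, zpow_natCast, ← inv_pow] at h1
  push_cast at h1
  linarith

end Pool.Agent.H250Z.HH
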