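import Pool.Agent.H250Z.HH.Check

set_option autoImplicit false

namespace Pool.Agent.H250Z.HH

open Finset

/-- the digit of index `s` -/
def dg (N s : ℕ) : ℕ := N / 65536 ^ s % 65536

theorem dg_succ (N s : ℕ) : dg N (s + 1) = dg (N / 65536) s := by
  unfold dg
  rw [Nat.div_div_eq_div_mul, pow_succ']

theorem dg_sum (n : ℕ) : ∀ (u : ℕ → ℕ), (∀ t < n, u t < 65536) → ∀ s < n,
    dg (∑ t ∈ range n, u t * 65536 ^ t) s = u s := by
  induction n with
  | zero => intro u _ s hs; omega
  | succ n ih =>
    intro u hu s hs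
    have e : ∑ t ∈ range (n + 1), u t * 65536 ^ t
        = u 0 + 65536 * ∑ t ∈ range n, u (t + 1) * 65536 ^ t := by
      rw [sum_range_succ', mul_sum, add_comm]
      congr 1
      · simp
      · refine sum_congr rfl fun t _ => ?_
        ring
    have h0 := hu 0 (by omega)
    rw [e]
    cases s with
    | zero =>
      unfold dg
      simp only [pow_zero, Nat.div_one]
      omega
    | succ s =>
      rw [dg_succ]
      have : (u 0 + 65536 * ∑ t ∈ range n, u (t + 1) * 65536 ^ t) / 65536
          = ∑ t ∈ range n, u (t + 1) * 65536 ^ t := by omega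
      rw [this]
      exact ih (fun t => u (t + 1)) (fun t ht => hu (t + 1) (by omega)) s (by omega)

theorem okd_spec (n : ℕ) : ∀ N, okd n N = true →
    N = ∑ t ∈ range n, dg N t * 65536 ^ t ∧ ∀ t < n, dg N t ≤ 15 := by
  induction n with
  | zero =>
    intro N h
    simp [okd] at h
    simp [h]
  | succ n ih =>
    intro N h
    simp only [okd, Bool.and_eq_true, decide_eq_true_eq] at h
    obtain ⟨h1, h2⟩ := ih _ h.2
    have d0 : dg N 0 = N % 65536 := by simp [dg]
    constructor
    · rw [sum_range_succ']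
      have : ∑ t ∈ range n, dg N (t + 1) * 65536 ^ (t + 1)
          = 65536 * ∑ t ∈ range n, dg (N / 65536) t * 65536 ^ t := by
        rw [mul_sum]
        refine sum_congr rfl fun t _ => ?_
        rw [dg_succ]; ring
      rw [this, ← h1, d0]
      omega
    · intro t ht
      cases t with
      | zero => rw [d0]; exact h.1
      | succ t => rw [dg_succ]; exact h2 t (by omega)

theorem chk_spec (r n : ℕ) : ∀ s S, chk r n s S = true →
    ∀ t < n, dg S t % 11 = if s + t = r then 1 else 0 := by
  induction n with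
  | zero => intro s S _ t ht; omega
  | succ n ih =>
    intro s S h t ht
    simp only [chk, Bool.and_eq_true, beq_iff_eq] at h
    cases t with
    | zero => simpa [dg] using h.1
    | succ t =>
      rw [dg_succ, ih _ _ h.2 t (by omega)]
      have : s + 1 + t = s + (t + 1) := by omega
      rw [this]

theorem dotL_eq (n : ℕ) (l : List (ℕ × ℕ)) (h : ∀ d ∈ l, d.1 ≤ 10 ∧ okd n d.2 = true) :
    dotL l = ∑ t ∈ range n, (l.map (fun d => d.1 * dg d.2 t)).sum * 65536 ^ t ∧
      ∀ t < n, (l.map (fun d => d.1 * dg d.2 t)).sum ≤ 150 * l.length := by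
  induction l with
  | nil => simp [dotL]
  | cons d l ih =>
    obtain ⟨h1, h2⟩ := ih (fun x hx => h x (List.mem_cons_of_mem _ hx))
    obtain ⟨hd1, hd2⟩ := h d List.mem_cons_self
    obtain ⟨e1, e2⟩ := okd_spec n _ hd2
    constructor
    · have : dotL (d :: l) = d.1 * d.2 + dotL l := by simp [dotL]
      rw [this, h1]
      conv_lhs => rw [e1]
      rw [mul_sum, ← sum_add_distrib]
      refine sum_congr rfl fun t _ => ?_
      simp only [List.map_cons, List.sum_cons]
      ring
    · intro t ht
      simp only [List.map_cons, List.sum_cons, List.length_cons]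
      have := h2 t ht
      have := Nat.mul_le_mul hd1 (e2 t ht)
      omega

theorem chk_dot (r n : ℕ) (l : List (ℕ × ℕ)) (h : ∀ d ∈ l, d.1 ≤ 10 ∧ okd n d.2 = true)
    (hl : l.length ≤ 400) (hc : chk r n 0 (dotL l) = true) (s : ℕ) (hs : s < n) :
    (((l.map (fun d => d.1 * dg d.2 s)).sum : ℕ) : ZMod 11) = if s = r then 1 else 0 := by
  obtain ⟨h1, h2⟩ := dotL_eq n l h
  have h3 := chk_spec r n 0 _ hc s hs
  rw [h1, dg_sum n (fun t => (l.map (fun d => d.1 * dg d.2 t)).sum)
    (fun t ht => by have := h2 t ht; omega) s hs, zero_add] at h3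
  rw [← ZMod.natCast_mod, h3]
  split_ifs <;> simp

theorem ch_eq (n i : ℕ) (hi : i ≤ 2) : ch n i = n.choose i := by
  interval_cases i
  · simp [ch]
  · simp [ch]
  · simp [ch, Nat.choose_two_right]

end Pool.Agent.H250Z.HH
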